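import Pool.Agent.P.MP_84eedd_co.Cone

/-!
Q2: the interlacing `Q_{n-1}^λ ⪯ Q_n^λ` fails for `n = 6` and `λ = (1, 24, 6, 189, 2, 1, 1, …)`.
-/

namespace Pool.Agent.Results.MP_84eedd_co.InterlacingFails

open Pool.Agent.P.MP_84eedd_co Polynomial

/-- the real roots of `f`, with multiplicity, in weakly decreasing order -/
noncomputable def rootsDesc (f : ℝ[X]) : List ℝ := f.roots.sort (· ≥ ·)

/-- all complex roots of `f` are real and non-positive -/
def RealNonpos (f : ℝ[X]) : Prop := ∀ z : ℂ, aeval z f = 0 → z.im = 0 ∧ z.re ≤ 0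

/-- the chain `⋯ ≤ f₂ ≤ g₂ ≤ f₁ ≤ g₁`, as far as the roots exist -/
def Interlaces (f g : ℝ[X]) : Prop :=
  (∀ (i : ℕ) (a b : ℝ), (rootsDesc f)[i]? = some a → (rootsDesc g)[i]? = some b → a ≤ b) ∧
  (∀ (i : ℕ) (a b : ℝ), (rootsDesc f)[i]? = some a → (rootsDesc g)[i + 1]? = some b → b ≤ a)

/-- the weights of the counterexample; `lam0 j` is `λ_{j+1}` -/
def lam0 : ℕ → ℝ
  | 1 => 24
  | 2 => 6
  | 3 => 189
  | 4 => 2
  | _ => 1

lemma lam0_pos (j : ℕ) : 0 < lam0 j := by
  unfold lam0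
  split <;> norm_num

lemma Q5 : phase (Q 5) (fun i => lam0 i.val) =
    C 13608 * ((X - C (-1 / 648)) * (X - C (-1 / 21))) := by
  have := aeval_Q (B := ℝ[X]) 4 (fun r => C (lam0 r) * X)
  rw [phase, this]
  apply Polynomial.funext
  intro t
  simp [HH, Finset.sum_range_succ, lam0]
  ring

lemma Q6 : phase (Q 6) (fun i => lam0 i.val) =
    C 36780 * ((X - C (-1 / 1839)) * (X - C (-1 / 20))) := by
  have := aeval_Q (B := ℝ[X]) 5 (fun r => C (lam0 r) * X)
  rw [phase, this]
  apply Polynomial.funext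
  intro t
  simp [HH, Finset.sum_range_succ, lam0]
  ring

lemma rootsDesc_quad (c a b : ℝ) (hc : c ≠ 0) (hab : b ≤ a) :
    rootsDesc (C c * ((X - C a) * (X - C b))) = [a, b] := by
  rw [rootsDesc, roots_C_mul _ hc, roots_mul (mul_ne_zero (X_sub_C_ne_zero a) (X_sub_C_ne_zero b)),
    roots_X_sub_C, roots_X_sub_C, Multiset.singleton_add, Multiset.sort_cons,
    Multiset.sort_singleton]
  intro x hx
  rw [Multiset.mem_singleton.mp hx]
  exact hab

lemma realNonpos_quad (c a b : ℝ) (hc : c ≠ 0) (ha : a ≤ 0) (hb : b ≤ 0) :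
    RealNonpos (C c * ((X - C a) * (X - C b))) := by
  intro z hz
  simp only [map_mul, map_sub, aeval_C, aeval_X, mul_eq_zero, sub_eq_zero] at hz
  rcases hz with h | h | h
  · exact absurd (by simpa using h) hc
  · rw [h]; simpa using ha
  · rw [h]; simpa using hb

theorem result : ∃ (lam : ℕ → ℝ) (n : ℕ), (∀ j, 0 < lam j) ∧ 1 < n ∧
    RealNonpos (phase (Q (n - 1)) (fun i => lam i.val)) ∧
    RealNonpos (phase (Q n) (fun i => lam i.val)) ∧
    ¬ Interlaces (phase (Q (n - 1)) (fun i => lam i.val)) (phase (Q n) (fun i => lam i.val)) := by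
  refine ⟨lam0, 6, lam0_pos, by norm_num, ?_, ?_, ?_⟩
  · show RealNonpos (phase (Q 5) (fun i => lam0 i.val))
    rw [Q5]
    exact realNonpos_quad _ _ _ (by norm_num) (by norm_num) (by norm_num)
  · rw [Q6]
    exact realNonpos_quad _ _ _ (by norm_num) (by norm_num) (by norm_num)
  · show ¬ Interlaces (phase (Q 5) (fun i => lam0 i.val)) _
    rw [Q5, Q6]
    intro h
    have := h.1 1 (-1 / 21) (-1 / 20)
      (by rw [rootsDesc_quad _ _ _ (by norm_num) (by norm_num)]; rfl)
      (by rw [rootsDesc_quad _ _ _ (by norm_num) (by norm_num)]; rfl)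
    norm_num at this

end Pool.Agent.Results.MP_84eedd_co.InterlacingFails
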