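import Pool.Agent.P.MP_84eedd_co.Cone

/-!
Q1: the descent polynomial `Q_n` of run-sorted permutations is same-phase stable.
-/

namespace Pool.Agent.Results.MP_84eedd_co.SamePhaseStable

open Pool.Agent.P.MP_84eedd_co

lemma ne_zero_of_im_pos (n : ℕ) (lam : Fin (n + 1) → ℝ) (hl : ∀ i, 0 < lam i) (z : ℂ)
    (hz : 0 < z.im) : Polynomial.aeval z (phase (Q (n + 1)) lam) ≠ 0 := by
  let c : ℕ → ℝ := fun r => if h : r < n + 1 then lam ⟨r, h⟩ else 1
  have hc : ∀ r, 0 ≤ c r := by
    intro r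
    by_cases h : r < n + 1
    · simp only [c, dif_pos h]; exact (hl _).le
    · simp only [c, dif_neg h]; exact zero_le_one
  have e : Polynomial.aeval z (phase (Q (n + 1)) lam) =
      MvPolynomial.aeval (fun i : Fin (n + 1) => (fun r => (c r : ℂ) * z) i.val) (Q (n + 1)) := by
    rw [phase, MvPolynomial.comp_aeval_apply]
    congr 2
    funext i
    simp only [c, dif_pos i.isLt]
    simp
  rw [e, aeval_Q n (fun r => (c r : ℂ) * z)]
  exact (HH_inv hz (fun r => c (n - r)) (fun r => hc _) n).2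

theorem result (n : ℕ) (hn : 1 ≤ n) (lam : Fin n → ℝ) (hl : ∀ i, 0 < lam i) (z : ℂ)
    (hz : Polynomial.aeval z (phase (Q n) lam) = 0) : z.im = 0 := by
  obtain ⟨m, rfl⟩ : ∃ m, n = m + 1 := ⟨n - 1, by omega⟩
  rcases lt_trichotomy z.im 0 with h | h | h
  · exfalso
    apply ne_zero_of_im_pos m lam hl ((starRingEnd ℂ) z) (by simpa using h)
    rw [Polynomial.aeval_conj, hz, map_zero]
  · exact h
  · exact absurd hz (ne_zero_of_im_pos m lam hl z h)

end Pool.Agent.Results.MP_84eedd_co.SamePhaseStable
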